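import Mathlib

/-!
Linear forms `X + a Y - b` in two variables over the field with `p` elements.
-/

open MvPolynomial

namespace Pool.Agent.KS6_55.Aff

variable {p : ℕ} [Fact p.Prime]

/-- The linear form `X + a Y - b`. -/
noncomputable def Lf (Q : ZMod p × ZMod p) : MvPolynomial (Fin 2) (ZMod p) :=
  X 0 + C Q.1 * X 1 - C Q.2

/-- Substitution `X ↦ b - a Y`. -/
noncomputable def sub (Q : ZMod p × ZMod p) :
    MvPolynomial (Fin 2) (ZMod p) →ₐ[ZMod p] MvPolynomial (Fin 2) (ZMod p) :=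
  aeval ![C Q.2 - C Q.1 * X 1, X 1]

theorem sub_X0 (Q : ZMod p × ZMod p) : sub Q (X 0) = C Q.2 - C Q.1 * X 1 := by
  simp [sub]

theorem sub_X1 (Q : ZMod p × ZMod p) : sub Q (X 1) = X 1 := by
  simp [sub]

theorem sub_C (Q : ZMod p × ZMod p) (c : ZMod p) : sub Q (C c) = C c := by
  simp [sub]

theorem dvd_self_sub (Q : ZMod p × ZMod p) (f : MvPolynomial (Fin 2) (ZMod p)) :
    Lf Q ∣ f - sub Q f := by
  have key : (Ideal.Quotient.mkₐ (ZMod p) (Ideal.span {Lf Q})) =
      (Ideal.Quotient.mkₐ (ZMod p) (Ideal.span {Lf Q})).comp (sub Q) := by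
    apply MvPolynomial.algHom_ext
    intro i
    fin_cases i
    · simp only [AlgHom.comp_apply]
      change (Ideal.Quotient.mkₐ (ZMod p) (Ideal.span {Lf Q})) (X 0) =
        (Ideal.Quotient.mkₐ (ZMod p) (Ideal.span {Lf Q})) (sub Q (X 0))
      rw [sub_X0, Ideal.Quotient.mkₐ_eq_mk, Ideal.Quotient.mk_eq_mk_iff_sub_mem,
        Ideal.mem_span_singleton]
      exact ⟨1, by simp only [Lf]; ring⟩
    · simp only [AlgHom.comp_apply]
      change (Ideal.Quotient.mkₐ (ZMod p) (Ideal.span {Lf Q})) (X 1) =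
        (Ideal.Quotient.mkₐ (ZMod p) (Ideal.span {Lf Q})) (sub Q (X 1))
      rw [sub_X1]
  have h := congrArg (fun φ => φ f) key
  simp only [AlgHom.comp_apply, Ideal.Quotient.mkₐ_eq_mk] at h
  rw [Ideal.Quotient.mk_eq_mk_iff_sub_mem, Ideal.mem_span_singleton] at h
  exact h

theorem sub_Lf (Q : ZMod p × ZMod p) : sub Q (Lf Q) = 0 := by
  simp only [Lf, map_add, map_sub, map_mul, sub_X0, sub_X1, sub_C]
  ring

theorem dvd_iff (Q : ZMod p × ZMod p) (f : MvPolynomial (Fin 2) (ZMod p)) :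
    Lf Q ∣ f ↔ sub Q f = 0 := by
  constructor
  · rintro ⟨g, rfl⟩
    rw [map_mul, sub_Lf, zero_mul]
  · intro h
    have := dvd_self_sub Q f
    rwa [h, sub_zero] at this

theorem e10 : ¬ (Finsupp.single (1 : Fin 2) 1 : Fin 2 →₀ ℕ) = Finsupp.single 0 1 := by
  intro h
  have := DFunLike.congr_fun h 0
  simp at this

theorem ez (i : Fin 2) : ¬ (0 : Fin 2 →₀ ℕ) = Finsupp.single i 1 := by
  intro h
  have := DFunLike.congr_fun h i
  simp at this

theorem Lf_ne_zero (Q : ZMod p × ZMod p) : Lf Q ≠ 0 := by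
  intro h
  have h1 := congrArg (coeff (Finsupp.single 0 1)) h
  simp [Lf, coeff_X, coeff_C_mul, coeff_C, e10, ez] at h1

theorem prime_Lf (Q : ZMod p × ZMod p) : Prime (Lf Q) := by
  refine ⟨Lf_ne_zero Q, ?_, ?_⟩
  · intro h
    have h1 : Lf Q ∣ 1 := h.dvd
    rw [dvd_iff, map_one] at h1
    exact one_ne_zero h1
  · intro a b hab
    rw [dvd_iff, map_mul] at hab
    rcases mul_eq_zero.1 hab with h | h
    · left; rwa [dvd_iff]
    · right; rwa [dvd_iff]

theorem eq_of_dvd {Q Q' : ZMod p × ZMod p} (h : Lf Q ∣ Lf Q') : Q = Q' := by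
  rw [dvd_iff] at h
  simp only [Lf, map_add, map_sub, map_mul, sub_X0, sub_X1, sub_C] at h
  have h0 := congrArg (coeff 0) h
  have h1 := congrArg (coeff (Finsupp.single 1 1)) h
  simp [coeff_X, coeff_C_mul, coeff_C, ez] at h0 h1
  ext
  · have : Q'.1 - Q.1 = 0 := by linear_combination h1
    exact (sub_eq_zero.1 this).symm
  · exact sub_eq_zero.1 h0

theorem totalDegree_Lf (Q : ZMod p × ZMod p) : (Lf Q).totalDegree = 1 := by
  apply le_antisymm
  · unfold Lf
    refine (totalDegree_sub _ _).trans (max_le ((totalDegree_add _ _).trans (max_le ?_ ?_)) ?_)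
    · simp
    · refine (totalDegree_mul _ _).trans ?_
      simp
    · simp
  · have h : Finsupp.single 0 1 ∈ (Lf Q).support := by
      rw [mem_support_iff]
      simp [Lf, coeff_X, coeff_C_mul, coeff_C, e10, ez]
    have := le_totalDegree h
    simpa using this

/-- The product of the linear forms of the points of `U`. -/
noncomputable def Rf (U : Finset (ZMod p × ZMod p)) : MvPolynomial (Fin 2) (ZMod p) :=
  ∏ Q ∈ U, Lf Q

theorem Rf_ne_zero (U : Finset (ZMod p × ZMod p)) : Rf U ≠ 0 :=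
  Finset.prod_ne_zero_iff.2 fun Q _ => Lf_ne_zero Q

theorem totalDegree_Rf (U : Finset (ZMod p × ZMod p)) : (Rf U).totalDegree = U.card := by
  classical
  induction U using Finset.induction_on with
  | empty => simp [Rf]
  | insert Q U hQ ih =>
    have h1 : Rf (insert Q U) = Lf Q * Rf U := by
      rw [Rf, Finset.prod_insert hQ, Rf]
    rw [h1, totalDegree_mul_of_isDomain (Lf_ne_zero Q) (Rf_ne_zero U),
      totalDegree_Lf, Finset.card_insert_of_notMem hQ, add_comm, ih]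

theorem Rf_dvd {U : Finset (ZMod p × ZMod p)} {f : MvPolynomial (Fin 2) (ZMod p)}
    (h : ∀ Q ∈ U, Lf Q ∣ f) : Rf U ∣ f := by
  apply Finset.prod_dvd_of_isRelPrime
  · intro Q _ Q' _ hne
    change IsRelPrime (Lf Q) (Lf Q')
    rw [(prime_Lf Q).irreducible.isRelPrime_iff_not_dvd]
    exact fun hd => hne (eq_of_dvd hd)
  · exact h

theorem eq_zero_of_dvd {U : Finset (ZMod p × ZMod p)} {f : MvPolynomial (Fin 2) (ZMod p)}
    (h : ∀ Q ∈ U, Lf Q ∣ f) (hd : f.totalDegree < U.card) : f = 0 := by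
  by_contra hf
  obtain ⟨g, rfl⟩ := Rf_dvd h
  have hg : g ≠ 0 := right_ne_zero_of_mul hf
  rw [totalDegree_mul_of_isDomain (Rf_ne_zero U) hg, totalDegree_Rf] at hd
  omega

theorem eval_Lf (Q : ZMod p × ZMod p) (x : Fin 2 → ZMod p) :
    eval x (Lf Q) = x 0 + Q.1 * x 1 - Q.2 := by
  simp [Lf]

theorem eval_Rf_eq_zero {U : Finset (ZMod p × ZMod p)} {x : Fin 2 → ZMod p} :
    eval x (Rf U) = 0 ↔ ∃ Q ∈ U, x 0 + Q.1 * x 1 - Q.2 = 0 := by
  rw [Rf, map_prod, Finset.prod_eq_zero_iff]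
  simp only [eval_Lf]

end Pool.Agent.KS6_55.Aff
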