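import Pool.Agent.KS6_55.Aff.A1

/-!
Partial derivatives and a Burgers equation for polynomials of small degree.
-/

open MvPolynomial

namespace Pool.Agent.KS6_55.Aff

variable {p : ℕ} [Fact p.Prime]

theorem totalDegree_pderiv_le (i : Fin 2) (f : MvPolynomial (Fin 2) (ZMod p)) :
    (pderiv i f).totalDegree ≤ f.totalDegree - 1 := by
  rw [totalDegree_eq]
  apply Finset.sup_le
  intro s hs
  rw [mem_support_iff, coeff_pderiv] at hs
  have h : s + Finsupp.single i 1 ∈ f.support := by
    rw [mem_support_iff]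
    exact left_ne_zero_of_mul hs
  have := le_totalDegree h
  have h2 : ((s + Finsupp.single i 1).sum fun _ e => e) = (s.sum fun _ e => e) + 1 := by
    rw [Finsupp.sum_add_index' (fun _ => rfl) (fun _ _ _ => rfl)]
    simp
  rw [h2] at this
  have h3 : Multiset.card (Finsupp.toMultiset s) = s.sum fun _ e => e := by
    rw [Finsupp.card_toMultiset]; rfl
  rw [h3]
  omega

theorem totalDegree_pderiv_lt {i : Fin 2} {f : MvPolynomial (Fin 2) (ZMod p)}
    (h : pderiv i f ≠ 0) : (pderiv i f).totalDegree < f.totalDegree := by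
  have h1 := totalDegree_pderiv_le i f
  have h2 : f.totalDegree ≠ 0 := by
    intro h0
    rw [totalDegree_eq_zero_iff_eq_C] at h0
    rw [h0] at h
    simp at h
  omega

theorem pderiv_eq_zero_of_dvd {i : Fin 2} {f : MvPolynomial (Fin 2) (ZMod p)}
    (h : f ∣ pderiv i f) : pderiv i f = 0 := by
  by_contra hne
  obtain ⟨g, hg⟩ := h
  have hf : f ≠ 0 := by
    rintro rfl
    simp at hne
  have hg0 : g ≠ 0 := by
    rintro rfl
    rw [mul_zero] at hg
    exact hne hg
  have h1 := totalDegree_pderiv_lt hne
  rw [hg, totalDegree_mul_of_isDomain hf hg0] at h1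
  omega

theorem eq_C_of_pderiv {f : MvPolynomial (Fin 2) (ZMod p)} (hd : f.totalDegree < p)
    (h : ∀ i, pderiv i f = 0) : f = C (coeff 0 f) := by
  ext s
  rw [coeff_C]
  split_ifs with hs
  · rw [hs]
  · by_contra hne
    obtain ⟨i, hi⟩ : ∃ i, s i ≠ 0 := by
      by_contra hcon
      push Not at hcon
      exact hs (Finsupp.ext fun i => (hcon i).symm)
    have h1 := congrArg (coeff (s - Finsupp.single i 1)) (h i)
    rw [coeff_pderiv, coeff_zero] at h1
    have h2 : s - Finsupp.single i 1 + Finsupp.single i 1 = s := by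
      apply tsub_add_cancel_of_le
      rw [Finsupp.single_le_iff]
      omega
    rw [h2] at h1
    rcases mul_eq_zero.1 h1 with h3 | h3
    · exact hne h3
    · have h4 : ((s - Finsupp.single i 1 : Fin 2 →₀ ℕ) i : ZMod p) + 1 = (s i : ZMod p) := by
        rw [Finsupp.tsub_apply, Finsupp.single_eq_same]
        have : s i = (s i - 1) + 1 := by omega
        conv_rhs => rw [this]
        push_cast
        ring
      rw [h4, ZMod.natCast_eq_zero_iff] at h3
      have h5 : s ∈ f.support := mem_support_iff.2 hne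
      have h6 := le_totalDegree h5
      have h7 : s i ≤ s.sum fun _ e => e := by
        by_cases hi2 : i ∈ s.support
        · exact Finset.single_le_sum (f := fun j => s j) (fun _ _ => Nat.zero_le _) hi2
        · rw [Finsupp.notMem_support_iff] at hi2
          omega
      have h8 := Nat.le_of_dvd (Nat.pos_of_ne_zero hi) h3
      omega

theorem pderiv_comm_zero {i j : Fin 2} (hij : i ≠ j) {f : MvPolynomial (Fin 2) (ZMod p)}
    (h : pderiv j f = 0) : pderiv j (pderiv i f) = 0 := by
  ext m
  rw [coeff_pderiv, coeff_pderiv, coeff_zero]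
  have h1 := congrArg (coeff (m + Finsupp.single i 1)) h
  rw [coeff_pderiv, coeff_zero] at h1
  have e1 : (m + Finsupp.single j 1 : Fin 2 →₀ ℕ) i = m i := by
    simp [Finsupp.single_apply, hij.symm]
  have e2 : (m + Finsupp.single i 1 : Fin 2 →₀ ℕ) j = m j := by
    simp [Finsupp.single_apply, hij]
  rw [e2] at h1
  have e3 : m + Finsupp.single j 1 + Finsupp.single i 1 =
      m + Finsupp.single i 1 + Finsupp.single j 1 := by
    rw [add_right_comm]
  rw [e3, e1]
  linear_combination (↑(m i) + 1) * h1

theorem eq_C_of_isUnit {f : MvPolynomial (Fin 2) (ZMod p)} (h : IsUnit f) :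
    f = C (coeff 0 f) := by
  obtain ⟨g, hg⟩ := h.dvd (a := 1)
  have hf : f ≠ 0 := h.ne_zero
  have hg0 : g ≠ 0 := by
    rintro rfl
    simp at hg
  have h1 := congrArg totalDegree hg
  rw [totalDegree_mul_of_isDomain hf hg0, totalDegree_one] at h1
  rw [← totalDegree_eq_zero_iff_eq_C]
  omega

theorem burgers {α β : MvPolynomial (Fin 2) (ZMod p)} (hr : IsRelPrime α β)
    (hα : α.totalDegree < p) (hβ : β.totalDegree < p)
    (h : α * (β * pderiv 0 β - α * pderiv 1 β) = β * (β * pderiv 0 α - α * pderiv 1 α)) :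
    ∃ c c1 c2 : ZMod p, α = C c1 + C c * X 1 ∧ β = C c2 - C c * X 0 := by
  have a0 : pderiv 0 α = 0 := by
    apply pderiv_eq_zero_of_dvd
    have h1 : α ∣ β * (β * pderiv 0 α - α * pderiv 1 α) := ⟨_, h.symm⟩
    have h2 := hr.dvd_of_dvd_mul_left h1
    have h3 : α ∣ β * pderiv 0 α := by
      have := dvd_add h2 (dvd_mul_right α (pderiv 1 α))
      rwa [sub_add_cancel] at this
    exact hr.dvd_of_dvd_mul_left h3
  have b1 : pderiv 1 β = 0 := by
    apply pderiv_eq_zero_of_dvd
    have h1 : β ∣ α * (β * pderiv 0 β - α * pderiv 1 β) := ⟨_, h⟩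
    have h2 := hr.symm.dvd_of_dvd_mul_left h1
    have h3 : β ∣ α * pderiv 1 β := by
      have := dvd_sub (dvd_mul_right β (pderiv 0 β)) h2
      rwa [sub_sub_cancel] at this
    exact hr.symm.dvd_of_dvd_mul_left h3
  rw [a0, b1] at h
  by_cases hα0 : α = 0
  · subst hα0
    have hu : IsUnit β := isRelPrime_zero_left.1 hr
    refine ⟨0, 0, coeff 0 β, by simp, ?_⟩
    simpa using eq_C_of_isUnit hu
  by_cases hβ0 : β = 0
  · subst hβ0
    have hu : IsUnit α := isRelPrime_zero_right.1 hr
    refine ⟨0, coeff 0 α, 0, ?_, by simp⟩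
    simpa using eq_C_of_isUnit hu
  have key : pderiv 0 β = - pderiv 1 α := by
    have : α * β * (pderiv 0 β + pderiv 1 α) = 0 := by linear_combination h
    rcases mul_eq_zero.1 this with h1 | h1
    · exact absurd h1 (mul_ne_zero hα0 hβ0)
    · exact eq_neg_of_add_eq_zero_left h1
  have e1 : pderiv 1 (pderiv 0 β) = 0 := pderiv_comm_zero (by decide) b1
  have e0 : pderiv 0 (pderiv 0 β) = 0 := by
    rw [key, map_neg, pderiv_comm_zero (by decide) a0, neg_zero]
  have ed : (pderiv 0 β).totalDegree < p := by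
    have := totalDegree_pderiv_le 0 β
    omega
  have ec := eq_C_of_pderiv ed (fun i => by fin_cases i; exacts [e0, e1])
  set e := coeff 0 (pderiv 0 β) with he
  refine ⟨-e, coeff 0 (α + C e * X 1), coeff 0 (β - C e * X 0), ?_, ?_⟩
  · have hd : (α + C e * X 1).totalDegree < p := by
      have h1 : 1 < p := (Fact.out : p.Prime).one_lt
      refine lt_of_le_of_lt (totalDegree_add _ _) (max_lt hα (lt_of_le_of_lt (totalDegree_mul _ _) ?_))
      rw [totalDegree_C, totalDegree_X]
      omega
    have := eq_C_of_pderiv hd (fun i => by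
      fin_cases i
      · change pderiv 0 (α + C e * X 1) = 0
        rw [map_add, a0, pderiv_C_mul, pderiv_X_of_ne (by decide)]
        simp
      · change pderiv 1 (α + C e * X 1) = 0
        rw [map_add, pderiv_C_mul, pderiv_X_self, ← ec, key]
        ring)
    rw [← this]
    rw [C_neg]
    ring
  · have hd : (β - C e * X 0).totalDegree < p := by
      have h1 : 1 < p := (Fact.out : p.Prime).one_lt
      refine lt_of_le_of_lt (totalDegree_sub _ _) (max_lt hβ (lt_of_le_of_lt (totalDegree_mul _ _) ?_))
      rw [totalDegree_C, totalDegree_X]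
      omega
    have := eq_C_of_pderiv hd (fun i => by
      fin_cases i
      · change pderiv 0 (β - C e * X 0) = 0
        rw [map_sub, pderiv_C_mul, pderiv_X_self, ← ec]
        ring
      · change pderiv 1 (β - C e * X 0) = 0
        rw [map_sub, b1, pderiv_C_mul, pderiv_X_of_ne (by decide)]
        simp)
    rw [← this]
    rw [C_neg]
    ring

end Pool.Agent.KS6_55.Aff
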