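import Pool.Agent.KS6_55.Aff.A2

/-!
If the product of `p` linear forms `X + a Y - b` times a nonzero polynomial of degree at most `p / 3`
vanishes at all points of the plane over the field with `p` elements, then all but `p / 3` of the
points `(a, b)` are on a line.
-/

open MvPolynomial

namespace Pool.Agent.KS6_55.Aff

variable {p : ℕ} [Fact p.Prime]

theorem prod_X_sub_C (i : Fin 2) :
    ∏ s : ZMod p, (X i - C s : MvPolynomial (Fin 2) (ZMod p)) = X i ^ p - X i := by
  have h1 : ((Polynomial.X ^ p - Polynomial.X : Polynomial (ZMod p)).roots.map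
      fun a => Polynomial.X - Polynomial.C a).prod = Polynomial.X ^ p - Polynomial.X := by
    apply Polynomial.prod_multiset_X_sub_C_of_monic_of_roots_card_eq
    · apply Polynomial.monic_X_pow_sub
      rw [Polynomial.degree_X]
      exact_mod_cast (Fact.out : p.Prime).one_lt
    · have := FiniteField.roots_X_pow_card_sub_X (ZMod p)
      rw [ZMod.card] at this
      rw [this, FiniteField.X_pow_card_sub_X_natDegree_eq _ (Fact.out : p.Prime).one_lt]
      simp
  have h2 := FiniteField.roots_X_pow_card_sub_X (ZMod p)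
  rw [ZMod.card] at h2
  rw [h2] at h1
  have h3 := congrArg (Polynomial.aeval (X i : MvPolynomial (Fin 2) (ZMod p))) h1
  rw [← Finset.prod_eq_multiset_prod, map_prod] at h3
  simp only [map_sub, map_pow, Polynomial.aeval_X, Polynomial.aeval_C] at h3
  exact h3

theorem totalDegree_Xp (i : Fin 2) :
    p ≤ (X i ^ p - X i : MvPolynomial (Fin 2) (ZMod p)).totalDegree := by
  have h : Finsupp.single i p ∈ (X i ^ p - X i : MvPolynomial (Fin 2) (ZMod p)).support := by
    rw [mem_support_iff, coeff_sub, coeff_X_pow, coeff_X]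
    have : ¬ Finsupp.single i 1 = Finsupp.single i p := by
      intro h
      have := DFunLike.congr_fun h i
      simp only [Finsupp.single_eq_same] at this
      exact (Fact.out : p.Prime).one_lt.ne this
    simp [this]
  have := le_totalDegree h
  rwa [Finsupp.sum_single_index rfl] at this

theorem Xp_ne_zero (i : Fin 2) : (X i ^ p - X i : MvPolynomial (Fin 2) (ZMod p)) ≠ 0 := by
  intro h
  have := totalDegree_Xp (p := p) i
  rw [h, totalDegree_zero] at this
  exact (Fact.out : p.Prime).pos.not_ge this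

theorem sub_Xp (Q : ZMod p × ZMod p) :
    sub Q (X 0 ^ p - X 0) = - (C Q.1 * (X 1 ^ p - X 1)) := by
  rw [map_sub, map_pow, sub_X0, sub_pow_char, mul_pow, ← C_pow, ← C_pow, ZMod.pow_card,
    ZMod.pow_card]
  ring

theorem nullst {H : MvPolynomial (Fin 2) (ZMod p)} {m : ℕ} (hd : H.totalDegree ≤ p + m)
    (hv : ∀ x, eval x H = 0) : ∃ A B : MvPolynomial (Fin 2) (ZMod p),
    A.totalDegree ≤ m ∧ B.totalDegree ≤ m ∧
      H = (X 0 ^ p - X 0) * A + (X 1 ^ p - X 1) * B := by
  obtain ⟨h, h1, h2⟩ := combinatorial_nullstellensatz_exists_linearCombination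
    (fun _ : Fin 2 => (Finset.univ : Finset (ZMod p))) (fun _ => Finset.univ_nonempty) H
    (fun x _ => hv x)
  simp only [prod_X_sub_C] at h1 h2
  have h3 : ∀ i, (h i).totalDegree ≤ m := by
    intro i
    by_cases h0 : h i = 0
    · rw [h0, totalDegree_zero]; exact Nat.zero_le _
    have h4 := h1 i
    rw [totalDegree_mul_of_isDomain (Xp_ne_zero i) h0] at h4
    have := totalDegree_Xp (p := p) i
    omega
  refine ⟨h 0, h 1, h3 0, h3 1, ?_⟩
  rw [h2, Finsupp.linearCombination_apply, Finsupp.sum_fintype _ _ (fun i => by simp)]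
  simp only [Fin.sum_univ_two, smul_eq_mul]
  ring

theorem totalDegree_le_of_mul {f g : MvPolynomial (Fin 2) (ZMod p)} (hf : f ≠ 0) :
    g.totalDegree ≤ (f * g).totalDegree := by
  by_cases hg : g = 0
  · simp [hg]
  · rw [totalDegree_mul_of_isDomain hf hg]
    omega

theorem foliation (U : Finset (ZMod p × ZMod p)) (hU : U.card = p) (m : ℕ) (hm : 3 * m ≤ p)
    (G : MvPolynomial (Fin 2) (ZMod p)) (hG : G ≠ 0) (hGd : G.totalDegree ≤ m)
    (hv : ∀ x, eval x (Rf U * G) = 0) :
    ∃ c c1 c2 : ZMod p, (c ≠ 0 ∨ c1 ≠ 0) ∧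
      p ≤ m + (U.filter fun Q => c2 = c1 * Q.1 + c * Q.2).card := by
  classical
  have hp : 0 < p := (Fact.out : p.Prime).pos
  have hH : Rf U * G ≠ 0 := mul_ne_zero (Rf_ne_zero U) hG
  obtain ⟨A, B, hA, hB, hAB⟩ := nullst (m := m) (H := Rf U * G) (by
    rw [totalDegree_mul_of_isDomain (Rf_ne_zero U) hG, totalDegree_Rf, hU]
    omega) hv
  have hAB0 : ¬ (A = 0 ∧ B = 0) := by
    rintro ⟨rfl, rfl⟩
    rw [mul_zero, mul_zero, add_zero] at hAB
    exact hH hAB
  -- the lines are invariant
  have hinv : ∀ Q ∈ U, Lf Q ∣ B - C Q.1 * A := by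
    intro Q hQ
    have h1 : Lf Q ∣ Rf U * G := dvd_mul_of_dvd_left (Finset.dvd_prod_of_mem _ hQ) _
    rw [dvd_iff, hAB, map_add, map_mul, map_mul, sub_Xp, map_sub, map_pow, sub_X1] at h1
    rw [dvd_iff, map_sub, map_mul, sub_C]
    have h2 : (X 1 ^ p - X 1 : MvPolynomial (Fin 2) (ZMod p)) *
        (sub Q B - C Q.1 * sub Q A) = 0 := by linear_combination h1
    rcases mul_eq_zero.1 h2 with h3 | h3
    · exact absurd h3 (Xp_ne_zero 1)
    · exact h3
  -- the extactic polynomial
  have hD : A * (B * pderiv 0 B - A * pderiv 1 B) - B * (B * pderiv 0 A - A * pderiv 1 A) = 0 := by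
    apply eq_zero_of_dvd (U := U)
    · intro Q hQ
      obtain ⟨w, hw⟩ := hinv Q hQ
      have hB' : B = C Q.1 * A + Lf Q * w := by rw [← hw]; ring
      have hL0 : pderiv 0 (Lf Q) = 1 := by
        rw [Lf, map_sub, map_add, pderiv_X_self, pderiv_C_mul, pderiv_X_of_ne (by decide),
          pderiv_C]
        ring
      have hL1 : pderiv 1 (Lf Q) = C Q.1 := by
        rw [Lf, map_sub, map_add, pderiv_X_of_ne (by decide), pderiv_C_mul, pderiv_X_self,
          pderiv_C]
        ring
      have h0 : pderiv 0 B = C Q.1 * pderiv 0 A + (w + Lf Q * pderiv 0 w) := by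
        conv_lhs => rw [hB']
        rw [map_add, pderiv_C_mul, pderiv_mul, hL0, one_mul]
      have h1 : pderiv 1 B = C Q.1 * pderiv 1 A + (C Q.1 * w + Lf Q * pderiv 1 w) := by
        conv_lhs => rw [hB']
        rw [map_add, pderiv_C_mul, pderiv_mul, hL1]
      refine ⟨A * (w ^ 2 + (B * pderiv 0 w - A * pderiv 1 w)) -
        w * (B * pderiv 0 A - A * pderiv 1 A), ?_⟩
      rw [h0, h1]
      linear_combination (A * w - (B * pderiv 0 A - A * pderiv 1 A)) * hB'
    · rw [hU]
      have d1 : ∀ (i : Fin 2) (f : MvPolynomial (Fin 2) (ZMod p)), f.totalDegree ≤ m →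
          (pderiv i f).totalDegree ≤ m - 1 := fun i f hf =>
        (totalDegree_pderiv_le i f).trans (by omega)
      have d2 : ∀ f : MvPolynomial (Fin 2) (ZMod p), f.totalDegree ≤ m →
          (B * pderiv 0 f - A * pderiv 1 f).totalDegree ≤ m + (m - 1) := by
        intro f hf
        refine (totalDegree_sub _ _).trans (max_le ?_ ?_)
        · exact (totalDegree_mul _ _).trans (add_le_add hB (d1 0 f hf))
        · exact (totalDegree_mul _ _).trans (add_le_add hA (d1 1 f hf))
      have d3 : (A * (B * pderiv 0 B - A * pderiv 1 B) -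
          B * (B * pderiv 0 A - A * pderiv 1 A)).totalDegree ≤ m + (m + (m - 1)) := by
        refine (totalDegree_sub _ _).trans (max_le ?_ ?_)
        · exact (totalDegree_mul _ _).trans (add_le_add hA (d2 B hB))
        · exact (totalDegree_mul _ _).trans (add_le_add hB (d2 A hA))
      omega
  -- divide by the greatest common divisor
  let _ : GCDMonoid (MvPolynomial (Fin 2) (ZMod p)) := UniqueFactorizationMonoid.toGCDMonoid _
  obtain ⟨α, β, hα, hβ, hu⟩ := extract_gcd A B
  set D := gcd A B with hDdef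
  have hD0 : D ≠ 0 := by
    intro h0
    rw [hDdef, gcd_eq_zero_iff] at h0
    exact hAB0 h0
  rw [gcd_isUnit_iff_isRelPrime] at hu
  have hαd : α.totalDegree ≤ m := (totalDegree_le_of_mul hD0).trans (by rw [← hα]; exact hA)
  have hβd : β.totalDegree ≤ m := (totalDegree_le_of_mul hD0).trans (by rw [← hβ]; exact hB)
  have hDd : D.totalDegree ≤ m := by
    by_cases h0 : A = 0
    · have hB0 : B ≠ 0 := fun h => hAB0 ⟨h0, h⟩
      have hβ0 : β ≠ 0 := by
        rintro rfl
        rw [mul_zero] at hβ
        exact hB0 hβ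
      refine (totalDegree_le_of_mul hβ0).trans ?_
      rw [mul_comm, ← hβ]
      exact hB
    · have hα0 : α ≠ 0 := by
        rintro rfl
        rw [mul_zero] at hα
        exact h0 hα
      refine (totalDegree_le_of_mul hα0).trans ?_
      rw [mul_comm, ← hα]
      exact hA
  have hE : α * (β * pderiv 0 β - α * pderiv 1 β) = β * (β * pderiv 0 α - α * pderiv 1 α) := by
    have h1 : D ^ 3 * (α * (β * pderiv 0 β - α * pderiv 1 β) -
        β * (β * pderiv 0 α - α * pderiv 1 α)) = 0 := by
      rw [← hD, hα, hβ]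
      simp only [pderiv_mul]
      ring
    rcases mul_eq_zero.1 h1 with h2 | h2
    · exact absurd (pow_eq_zero_iff (by norm_num)|>.1 h2) hD0
    · exact sub_eq_zero.1 h2
  obtain ⟨c, c1, c2, hc1, hc2⟩ := burgers hu (by omega) (by omega) hE
  refine ⟨c, c1, c2, ?_, ?_⟩
  · by_contra hcon
    push Not at hcon
    obtain ⟨rfl, rfl⟩ := hcon
    have hα0 : α = 0 := by rw [hc1]; simp
    have hA0 : A = 0 := by rw [hα, hα0, mul_zero]
    have hB0 : B = 0 := by
      apply eq_zero_of_dvd (U := U)
      · intro Q hQ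
        have := hinv Q hQ
        rwa [hA0, mul_zero, sub_zero] at this
      · omega
    exact hAB0 ⟨hA0, hB0⟩
  · have h1 : (U.filter fun Q => ¬ c2 = c1 * Q.1 + c * Q.2).card ≤ m := by
      by_contra hcon
      rw [not_le] at hcon
      apply hD0
      apply eq_zero_of_dvd (U := U.filter fun Q => ¬ c2 = c1 * Q.1 + c * Q.2)
      · intro Q hQ
        rw [Finset.mem_filter] at hQ
        have h2 := hinv Q hQ.1
        rw [hα, hβ] at h2
        have h3 : Lf Q ∣ D * (β - C Q.1 * α) := by
          convert h2 using 1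
          ring
        rcases (prime_Lf Q).dvd_or_dvd h3 with h4 | h4
        · exact h4
        · exfalso
          apply hQ.2
          rw [dvd_iff, hc1, hc2] at h4
          simp only [map_sub, map_add, map_mul, sub_C, sub_X0, sub_X1] at h4
          have h5 : (C (c2 - (c1 * Q.1 + c * Q.2)) : MvPolynomial (Fin 2) (ZMod p)) = 0 := by
            simp only [C_sub, C_add, C_mul]
            linear_combination h4
          rw [C_eq_zero] at h5
          exact sub_eq_zero.1 h5
      · omega
    have h2 := Finset.card_filter_add_card_filter_not (s := U)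
      (fun Q => c2 = c1 * Q.1 + c * Q.2)
    omega

end Pool.Agent.KS6_55.Aff
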