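import Mathlib

/-!
A set of points of the plane over the field with `p` elements which is the set of nonzeros of a
polynomial of small degree is on a curve of small degree.
-/

open MvPolynomial

namespace Pool.Agent.KS6_55.Aff

variable {p : ℕ} [Fact p.Prime]

/-- Index set of the monomials of degree at most `m`. -/
abbrev Idx (m : ℕ) := Σ i : Fin (m + 1), Fin (i + 1)

theorem card_Idx (m : ℕ) : 2 * Fintype.card (Idx m) = (m + 1) * (m + 2) := by
  rw [Fintype.card_sigma]
  simp only [Fintype.card_fin]
  rw [Fin.sum_univ_eq_sum_range (fun i => i + 1) (m + 1)]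
  induction m with
  | zero => simp
  | succ m ih =>
    rw [Finset.sum_range_succ, mul_add, ih]
    ring

/-- The exponent of an index. -/
noncomputable def ex {m : ℕ} (q : Idx m) : Fin 2 →₀ ℕ :=
  Finsupp.single 0 (q.2 : ℕ) + Finsupp.single 1 ((q.1 : ℕ) - q.2)

theorem ex_inj {m : ℕ} : Function.Injective (ex (m := m)) := by
  rintro ⟨i, j⟩ ⟨i', j'⟩ h
  have h0 := DFunLike.congr_fun h 0
  have h1 := DFunLike.congr_fun h 1
  simp [ex] at h0 h1
  have hj := j.2
  have hj' := j'.2
  have hi : i = i' := by
    ext
    omega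
  subst hi
  have : j = j' := by
    ext
    omega
  rw [this]

/-- The polynomial with given coefficients. -/
noncomputable def Phi (m : ℕ) : (Idx m → ZMod p) →ₗ[ZMod p] MvPolynomial (Fin 2) (ZMod p) :=
  ∑ q : Idx m, (monomial (ex q)).comp (LinearMap.proj q)

theorem Phi_apply (m : ℕ) (c : Idx m → ZMod p) : Phi m c = ∑ q : Idx m, monomial (ex q) (c q) := by
  simp [Phi]

theorem coeff_Phi (m : ℕ) (c : Idx m → ZMod p) (q : Idx m) : coeff (ex q) (Phi m c) = c q := by
  classical
  rw [Phi_apply, coeff_sum]
  simp only [coeff_monomial, ex_inj.eq_iff]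
  simp

theorem totalDegree_Phi (m : ℕ) (c : Idx m → ZMod p) : (Phi m c).totalDegree ≤ m := by
  rw [Phi_apply]
  apply totalDegree_finsetSum_le
  rintro ⟨i, j⟩ _
  refine (totalDegree_monomial_le _ _).trans ?_
  rw [ex, Finsupp.sum_add_index' (fun _ => rfl) (fun _ _ _ => rfl)]
  rw [Finsupp.sum_single_index (by rfl), Finsupp.sum_single_index (by rfl)]
  have hj := j.2
  have hi := i.2
  simp only [id]
  omega

theorem exists_curve (E : Finset (Fin 2 → ZMod p)) (R : MvPolynomial (Fin 2) (ZMod p))
    (hR : ∀ x, x ∈ E ↔ eval x R ≠ 0) (m : ℕ) (hdeg : R.totalDegree + 2 * m < 2 * (p - 1))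
    (hcard : E.card < (m + 1) * (m + 2)) :
    ∃ G : MvPolynomial (Fin 2) (ZMod p), G ≠ 0 ∧ G.totalDegree ≤ m ∧ ∀ x ∈ E, eval x G = 0 := by
  classical
  by_contra hcon
  push Not at hcon
  let ev : (Idx m → ZMod p) →ₗ[ZMod p] (E → ZMod p) :=
    LinearMap.pi fun x => ((aeval (x : Fin 2 → ZMod p)).toLinearMap).comp (Phi m)
  have ev_apply : ∀ c x, ev c x = eval (x : Fin 2 → ZMod p) (Phi m c) := by
    intro c x
    simp [ev, aeval_eq_eval]
  have hinj : Function.Injective ev := by
    rw [injective_iff_map_eq_zero]
    intro c hc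
    by_contra hc0
    have hP : Phi m c ≠ 0 := by
      intro h0
      apply hc0
      funext q
      rw [← coeff_Phi m c q, h0, coeff_zero]
      rfl
    obtain ⟨x, hx, hne⟩ := hcon _ hP (totalDegree_Phi m c)
    apply hne
    rw [← ev_apply c ⟨x, hx⟩, hc]
    rfl
  let T : (Idx m → ZMod p) →ₗ[ZMod p] Module.Dual (ZMod p) (E → ZMod p) :=
    { toFun := fun c => ∑ x : E, (eval (x : Fin 2 → ZMod p) R * ev c x) • LinearMap.proj x
      map_add' := by
        intro c c'
        rw [← Finset.sum_add_distrib]
        refine Finset.sum_congr rfl fun x _ => ?_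
        rw [map_add, Pi.add_apply, mul_add, add_smul]
      map_smul' := by
        intro a c
        rw [RingHom.id_apply, Finset.smul_sum]
        refine Finset.sum_congr rfl fun x _ => ?_
        rw [map_smul, Pi.smul_apply, smul_eq_mul, smul_smul]
        congr 1
        ring }
  have T_apply : ∀ c f, T c f = ∑ x : E, eval (x : Fin 2 → ZMod p) R * ev c x * f x := by
    intro c f
    change (∑ x : E, (eval (x : Fin 2 → ZMod p) R * ev c x) •
      (LinearMap.proj x : (E → ZMod p) →ₗ[ZMod p] ZMod p)) f = _
    rw [LinearMap.sum_apply]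
    rfl
  have Tinj : Function.Injective T := by
    rw [injective_iff_map_eq_zero]
    intro c hc
    apply hinj
    rw [map_zero]
    funext x
    have h1 := T_apply c (Pi.single x 1)
    rw [hc, LinearMap.zero_apply] at h1
    rw [Finset.sum_eq_single x] at h1
    · rw [Pi.single_eq_same, mul_one] at h1
      rcases mul_eq_zero.1 h1.symm with h2 | h2
      · exact absurd h2 ((hR x).1 x.2)
      · exact h2
    · intro y _ hy
      rw [Pi.single_eq_of_ne hy, mul_zero]
    · intro h
      exact absurd (Finset.mem_univ x) h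
  have hle : LinearMap.range T ≤ (LinearMap.range ev).dualAnnihilator := by
    rintro _ ⟨c, rfl⟩
    rw [Submodule.mem_dualAnnihilator]
    rintro _ ⟨c', rfl⟩
    rw [T_apply]
    have h1 : ∑ x : Fin 2 → ZMod p, eval x (R * Phi m c * Phi m c') = 0 := by
      apply sum_eval_eq_zero
      rw [ZMod.card, Fintype.card_fin]
      have h2 := totalDegree_mul (R * Phi m c) (Phi m c')
      have h3 := totalDegree_mul R (Phi m c)
      have h4 := totalDegree_Phi m c
      have h5 := totalDegree_Phi m c'
      omega
    rw [← h1]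
    rw [← Finset.sum_subset (Finset.subset_univ E)]
    · rw [← Finset.sum_coe_sort E]
      refine Finset.sum_congr rfl fun x _ => ?_
      rw [ev_apply, ev_apply, map_mul, map_mul]
    · intro x _ hx
      have : eval x R = 0 := by
        by_contra h
        exact hx ((hR x).2 h)
      rw [map_mul, map_mul, this, zero_mul, zero_mul]
  have h1 := Submodule.finrank_mono hle
  have h2 := Subspace.finrank_add_finrank_dualAnnihilator_eq (LinearMap.range ev)
  rw [LinearMap.finrank_range_of_inj Tinj] at h1
  rw [LinearMap.finrank_range_of_inj hinj] at h2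
  rw [Module.finrank_fintype_fun_eq_card, Module.finrank_fintype_fun_eq_card,
    Fintype.card_coe] at h2
  rw [Module.finrank_fintype_fun_eq_card] at h1
  have h3 := card_Idx m
  omega

end Pool.Agent.KS6_55.Aff
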