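import Pool.Agent.KS6_55.Aff.A3
import Pool.Agent.KS6_55.Aff.A4

/-!
A set of `p` points in the affine plane of prime order `p` that meets every line in `0` or
`1 mod s` points, `s ≥ 8`, is a line.
-/

open MvPolynomial

namespace Pool.Agent.KS6_55.Aff

variable {p : ℕ} [Fact p.Prime]

/-- collinearity -/
def Coll (P Q T : ZMod p × ZMod p) : Prop :=
  (Q.1 - P.1) * (T.2 - P.2) = (Q.2 - P.2) * (T.1 - P.1)

theorem mem_of_coll {c c1 c2 : ZMod p} {P Q T : ZMod p × ZMod p}
    (hQ : c2 = c1 * Q.1 + c * Q.2) (hT : c2 = c1 * T.1 + c * T.2) (hne : Q ≠ T)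
    (h : Coll P Q T) : c2 = c1 * P.1 + c * P.2 := by
  unfold Coll at h
  have h1 : (T.1 - Q.1) * (c1 * (Q.1 - P.1) + c * (Q.2 - P.2)) = 0 := by
    linear_combination (Q.1 - P.1) * (hQ - hT) - c * h
  have h2 : (T.2 - Q.2) * (c1 * (Q.1 - P.1) + c * (Q.2 - P.2)) = 0 := by
    linear_combination (Q.2 - P.2) * (hQ - hT) + c1 * h
  by_cases h3 : T.1 - Q.1 = 0
  · have h4 : T.2 - Q.2 ≠ 0 := by
      intro h4
      exact hne (Prod.ext (sub_eq_zero.1 h3).symm (sub_eq_zero.1 h4).symm)
    have h5 := (mul_eq_zero.1 h2).resolve_left h4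
    linear_combination hQ + h5
  · have h5 := (mul_eq_zero.1 h1).resolve_left h3
    linear_combination hQ + h5

theorem coll_trans {P Q Q' T : ZMod p × ZMod p} (hT : T ≠ P) (h : Coll P Q T)
    (h' : Coll P Q' T) : Coll P Q Q' := by
  unfold Coll at *
  by_cases h1 : T.1 - P.1 = 0
  · have h2 : T.2 - P.2 ≠ 0 := fun h2 =>
      hT (Prod.ext (sub_eq_zero.1 h1) (sub_eq_zero.1 h2))
    have h3 : (T.2 - P.2) * ((Q.1 - P.1) * (Q'.2 - P.2) - (Q.2 - P.2) * (Q'.1 - P.1)) = 0 := by
      linear_combination (Q'.2 - P.2) * h - (Q.2 - P.2) * h'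
    exact sub_eq_zero.1 ((mul_eq_zero.1 h3).resolve_left h2)
  · have h3 : (T.1 - P.1) * ((Q.1 - P.1) * (Q'.2 - P.2) - (Q.2 - P.2) * (Q'.1 - P.1)) = 0 := by
      linear_combination (Q'.1 - P.1) * h - (Q.1 - P.1) * h'
    exact sub_eq_zero.1 ((mul_eq_zero.1 h3).resolve_left h1)

/-- the number of points of `U` on the line `x 0 + a x 1 = b` in the dual plane -/
def Nx (U : Finset (ZMod p × ZMod p)) (x : Fin 2 → ZMod p) : ℕ :=
  (U.filter fun Q => x 0 + Q.1 * x 1 - Q.2 = 0).card

theorem card_dual_line (Q : ZMod p × ZMod p) :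
    (Finset.univ.filter fun x : Fin 2 → ZMod p => x 0 + Q.1 * x 1 - Q.2 = 0).card = p := by
  have h : (Finset.univ.filter fun x : Fin 2 → ZMod p => x 0 + Q.1 * x 1 - Q.2 = 0) =
      Finset.univ.image (fun y : ZMod p => (![Q.2 - Q.1 * y, y] : Fin 2 → ZMod p)) := by
    ext x
    simp only [Finset.mem_filter, Finset.mem_univ, true_and, Finset.mem_image]
    constructor
    · intro h
      refine ⟨x 1, ?_⟩
      ext i
      fin_cases i
      · simp only [Fin.zero_eta, Matrix.cons_val_zero]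
        linear_combination -h
      · simp
    · rintro ⟨y, rfl⟩
      simp
  rw [h, Finset.card_image_of_injective]
  · rw [Finset.card_univ, ZMod.card]
  · intro y y' hy
    have := congrFun hy 1
    simpa using this

theorem card_dual_two {Q Q' : ZMod p × ZMod p} (hne : Q ≠ Q') :
    (Finset.univ.filter fun x : Fin 2 → ZMod p =>
      x 0 + Q.1 * x 1 - Q.2 = 0 ∧ x 0 + Q'.1 * x 1 - Q'.2 = 0).card ≤ 1 := by
  rw [Finset.card_le_one]
  intro x hx y hy
  simp only [Finset.mem_filter, Finset.mem_univ, true_and] at hx hy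
  have h1 : (Q.1 - Q'.1) * (x 1 - y 1) = 0 := by
    linear_combination hx.1 - hx.2 - hy.1 + hy.2
  have h2 : Q.1 - Q'.1 ≠ 0 := by
    intro h0
    apply hne
    have h3 : Q.1 = Q'.1 := sub_eq_zero.1 h0
    refine Prod.ext h3 ?_
    have := hx.1
    have := hx.2
    rw [← h3] at this
    linear_combination this - hx.1
  have h3 : x 1 = y 1 := sub_eq_zero.1 ((mul_eq_zero.1 h1).resolve_left h2)
  ext i
  fin_cases i
  · change x 0 = y 0
    rw [h3] at hx
    linear_combination hx.1 - hy.1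
  · exact h3

theorem sum_Nx (U : Finset (ZMod p × ZMod p)) : ∑ x, Nx U x = U.card * p := by
  simp only [Nx, Finset.card_filter]
  rw [Finset.sum_comm]
  simp only [← Finset.card_filter, card_dual_line]
  rw [Finset.sum_const, smul_eq_mul]

theorem sum_Nx_sq (U : Finset (ZMod p × ZMod p)) :
    ∑ x, Nx U x * Nx U x ≤ U.card * p + U.card * (U.card - 1) := by
  classical
  have h : ∀ x, Nx U x * Nx U x = ∑ Q ∈ U, ∑ Q' ∈ U,
      if x 0 + Q.1 * x 1 - Q.2 = 0 ∧ x 0 + Q'.1 * x 1 - Q'.2 = 0 then 1 else 0 := by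
    intro x
    simp only [Nx, Finset.card_filter]
    rw [Finset.sum_mul_sum]
    refine Finset.sum_congr rfl fun Q _ => Finset.sum_congr rfl fun Q' _ => ?_
    by_cases h1 : x 0 + Q.1 * x 1 - Q.2 = 0 <;> by_cases h2 : x 0 + Q'.1 * x 1 - Q'.2 = 0 <;>
      simp [h1, h2]
  simp only [h]
  rw [Finset.sum_comm]
  have h2 : ∀ Q ∈ U, (∑ x : Fin 2 → ZMod p, ∑ Q' ∈ U,
      if x 0 + Q.1 * x 1 - Q.2 = 0 ∧ x 0 + Q'.1 * x 1 - Q'.2 = 0 then 1 else 0) ≤
        p + (U.card - 1) := by
    intro Q hQ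
    rw [Finset.sum_comm]
    simp only [← Finset.card_filter]
    rw [← Finset.add_sum_erase U _ hQ]
    apply add_le_add
    · simp only [and_self]
      rw [card_dual_line]
    · rw [← Finset.card_erase_of_mem hQ]
      refine (Finset.sum_le_sum fun Q' hQ' => card_dual_two (Finset.ne_of_mem_erase hQ').symm).trans
        ?_
      simp
  refine (Finset.sum_le_sum h2).trans ?_
  rw [Finset.sum_const, smul_eq_mul, mul_add]

theorem plane (s : ℕ) (hs : 8 ≤ s) (hps : p ≡ 1 [MOD s]) (U : Finset (ZMod p × ZMod p))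
    (hU : U.card = p)
    (hline : ∀ c c1 c2 : ZMod p, (c ≠ 0 ∨ c1 ≠ 0) →
      (U.filter fun Q => c2 = c1 * Q.1 + c * Q.2).card = 0 ∨
      (U.filter fun Q => c2 = c1 * Q.1 + c * Q.2).card ≡ 1 [MOD s]) :
    ∃ c c1 c2 : ZMod p, (c ≠ 0 ∨ c1 ≠ 0) ∧ ∀ Q ∈ U, c2 = c1 * Q.1 + c * Q.2 := by
  classical
  have hp2 : 2 ≤ p := (Fact.out : p.Prime).two_le
  have hbig : ∀ k : ℕ, k ≡ 1 [MOD s] → 2 ≤ k → s + 1 ≤ k := by
    intro k hk h2
    have h3 : s ∣ k - 1 := (Nat.modEq_iff_dvd' (by omega)).1 hk.symm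
    have := Nat.le_of_dvd (by omega) h3
    omega
  have hps9 : s + 1 ≤ p := hbig p hps hp2
  -- the set of lines that miss `U`
  let E : Finset (Fin 2 → ZMod p) := Finset.univ.filter fun x => eval x (Rf U) ≠ 0
  have hN : ∀ x, Nx U x = 0 ∨ Nx U x ≡ 1 [MOD s] := by
    intro x
    have h1 := hline 1 (-x 1) (x 0) (Or.inl one_ne_zero)
    have h2 : (U.filter fun Q => x 0 = (-x 1) * Q.1 + 1 * Q.2) =
        U.filter fun Q => x 0 + Q.1 * x 1 - Q.2 = 0 := by
      apply Finset.filter_congr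
      intro Q _
      constructor
      · intro h; rw [h]; ring
      · intro h; linear_combination h
    rw [h2] at h1
    exact h1
  have hE : ∀ x, x ∈ E ↔ Nx U x = 0 := by
    intro x
    simp only [E, Finset.mem_filter, Finset.mem_univ, true_and]
    rw [Ne, eval_Rf_eq_zero, Nx, Finset.card_eq_zero, Finset.filter_eq_empty_iff]
    push Not
    rfl
  have hEcard : (s + 1) * E.card ≤ p * (p - 1) := by
    have h1 : E.card = ∑ x : Fin 2 → ZMod p, if Nx U x = 0 then 1 else 0 := by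
      rw [← Finset.card_filter]
      congr 1
      ext x
      simp only [hE, Finset.mem_filter, Finset.mem_univ, true_and]
    have h2 : ∑ x : Fin 2 → ZMod p, 1 = p * p := by
      rw [Finset.sum_const, Finset.card_univ, Fintype.card_pi]
      simp [ZMod.card, sq]
    have h3 := sum_Nx U
    have h4 := sum_Nx_sq U
    rw [hU] at h3 h4
    have h5 : ∑ x : Fin 2 → ZMod p, ((s + 1) * (if Nx U x = 0 then 1 else 0) +
        (s + 1) * Nx U x + Nx U x) ≤
        ∑ x : Fin 2 → ZMod p, (Nx U x * Nx U x + (s + 1) * 1) := by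
      apply Finset.sum_le_sum
      intro x _
      rcases hN x with h0 | h0
      · rw [h0]; simp
      · rcases Nat.lt_or_ge (Nx U x) 2 with h6 | h6
        · have h7 : Nx U x = 0 ∨ Nx U x = 1 := by omega
          rcases h7 with h7 | h7
          · rw [h7]; simp
          · rw [h7]; simp
        · have h8 := hbig _ h0 h6
          rw [if_neg (by omega)]
          nlinarith
    rw [Finset.sum_add_distrib, Finset.sum_add_distrib, Finset.sum_add_distrib,
      ← Finset.mul_sum, ← Finset.mul_sum, ← Finset.mul_sum, ← h1, h2, h3] at h5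
    have h9 : p * p = p * (p - 1) + p := by
      have : p = (p - 1) + 1 := by omega
      conv_lhs => rw [this]
      conv_rhs => rw [this]
      simp only [Nat.add_sub_cancel]
      ring
    nlinarith
  obtain ⟨m, hm⟩ : ∃ m, m = p / 3 := ⟨_, rfl⟩
  have hcard : E.card < (m + 1) * (m + 2) := by
    by_contra hcon
    rw [not_lt] at hcon
    have h1 : 9 * E.card ≤ (s + 1) * E.card := Nat.mul_le_mul_right _ (by omega)
    have h2 : p ≤ 3 * m + 2 := by omega
    have h3 : p * (p - 1) ≤ (3 * m + 2) * (3 * m + 1) := Nat.mul_le_mul h2 (by omega)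
    nlinarith
  obtain ⟨G, hG, hGd, hGE⟩ := exists_curve E (Rf U)
    (fun x => by simp only [E, Finset.mem_filter, Finset.mem_univ, true_and]) m
    (by rw [totalDegree_Rf, hU]; omega) hcard
  obtain ⟨c, c1, c2, hc, hk⟩ := foliation U hU m (by omega) G hG hGd (by
    intro x
    rw [map_mul]
    by_cases hx : x ∈ E
    · rw [hGE x hx, mul_zero]
    · have : eval x (Rf U) = 0 := by
        simpa only [E, Finset.mem_filter, Finset.mem_univ, true_and, not_not] using hx
      rw [this, zero_mul])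
  refine ⟨c, c1, c2, hc, ?_⟩
  by_contra hcon
  push Not at hcon
  obtain ⟨P, hP, hPl⟩ := hcon
  -- a third point on the line through `P` and `Q`
  have hthird : ∀ Q ∈ U, Q ≠ P → ∃ T ∈ U, T ≠ P ∧ T ≠ Q ∧ Coll P Q T := by
    intro Q hQ hQP
    have hc' : (-(Q.1 - P.1) ≠ 0 ∨ (Q.2 - P.2) ≠ 0) := by
      by_contra h0
      push Not at h0
      apply hQP
      exact Prod.ext (sub_eq_zero.1 (neg_eq_zero.1 h0.1)) (sub_eq_zero.1 h0.2)
    have h1 := hline (-(Q.1 - P.1)) (Q.2 - P.2)
      ((Q.2 - P.2) * P.1 + (-(Q.1 - P.1)) * P.2) hc'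
    set V := U.filter fun T => (Q.2 - P.2) * P.1 + (-(Q.1 - P.1)) * P.2 =
      (Q.2 - P.2) * T.1 + (-(Q.1 - P.1)) * T.2 with hV
    have hPV : P ∈ V := by rw [hV, Finset.mem_filter]; exact ⟨hP, rfl⟩
    have hQV : Q ∈ V := by rw [hV, Finset.mem_filter]; exact ⟨hQ, by ring⟩
    have h2 : 2 ≤ V.card := by
      have : ({P, Q} : Finset _) ⊆ V := by
        intro z hz
        rw [Finset.mem_insert, Finset.mem_singleton] at hz
        rcases hz with rfl | rfl
        · exact hPV
        · exact hQV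
      have h3 := Finset.card_le_card this
      rwa [Finset.card_pair hQP.symm] at h3
    have h3 : s + 1 ≤ V.card := by
      rcases h1 with h1 | h1
      · omega
      · exact hbig _ h1 h2
    have h4 : ((V.erase P).erase Q).Nonempty := by
      rw [← Finset.card_pos]
      have := Finset.pred_card_le_card_erase (s := V) (a := P)
      have := Finset.pred_card_le_card_erase (s := V.erase P) (a := Q)
      omega
    obtain ⟨T, hT⟩ := h4
    rw [Finset.mem_erase, Finset.mem_erase, hV, Finset.mem_filter] at hT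
    refine ⟨T, hT.2.2.1, hT.2.1, hT.1, ?_⟩
    unfold Coll
    linear_combination hT.2.2.2
  choose! f hf1 hf2 hf3 hf4 using hthird
  have hQP : ∀ Q ∈ U.filter (fun Q => c2 = c1 * Q.1 + c * Q.2), Q ≠ P := by
    rintro Q hQ rfl
    exact hPl (Finset.mem_filter.1 hQ).2
  have hle : (U.filter fun Q => c2 = c1 * Q.1 + c * Q.2).card ≤
      ((U.filter fun Q => ¬ c2 = c1 * Q.1 + c * Q.2).erase P).card := by
    apply Finset.card_le_card_of_injOn f
    · intro Q hQ
      have h1 := hQP Q hQ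
      rw [Finset.mem_coe, Finset.mem_filter] at hQ
      rw [Finset.mem_coe, Finset.mem_erase, Finset.mem_filter]
      refine ⟨hf2 Q hQ.1 h1, hf1 Q hQ.1 h1, fun hT => hPl ?_⟩
      exact mem_of_coll hQ.2 hT (hf3 Q hQ.1 h1).symm (hf4 Q hQ.1 h1)
    · intro Q hQ Q' hQ' hff
      by_contra hne
      have h1 := hQP Q hQ
      have h1' := hQP Q' hQ'
      rw [Finset.mem_coe, Finset.mem_filter] at hQ hQ'
      apply hPl
      apply mem_of_coll hQ.2 hQ'.2 hne
      apply coll_trans (hf2 Q hQ.1 h1) (hf4 Q hQ.1 h1)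
      rw [hff]
      exact hf4 Q' hQ'.1 h1'
  have hPmem : P ∈ U.filter fun Q => ¬ c2 = c1 * Q.1 + c * Q.2 := by
    rw [Finset.mem_filter]; exact ⟨hP, hPl⟩
  rw [Finset.card_erase_of_mem hPmem] at hle
  have h2 := Finset.card_filter_add_card_filter_not (s := U)
    (fun Q => c2 = c1 * Q.1 + c * Q.2)
  have h3 := Finset.card_pos.2 ⟨P, hPmem⟩
  omega

end Pool.Agent.KS6_55.Aff
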