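import Pool.Agent.KS6_55.Aff.A5

/-!
A set of `p` points in a vector space over the field with `p` elements that meets every affine
subspace in `0` or `1 mod s` points, `s ≥ 8`, is contained in a line.
-/

namespace Pool.Agent.KS6_55.Aff

variable {p : ℕ} [Fact p.Prime]

theorem exists_functional {V : Type*} [AddCommGroup V] [Module (ZMod p) V]
    {K : Submodule (ZMod p) V} {w : V} (hw : w ∉ K) :
    ∃ f : V →ₗ[ZMod p] ZMod p, f w = 1 ∧ ∀ x ∈ K, f x = 0 := by
  obtain ⟨f, hf, hK⟩ := Submodule.exists_le_ker_of_notMem hw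
  refine ⟨(f w)⁻¹ • f, ?_, ?_⟩
  · simp [inv_mul_cancel₀ hf]
  · intro x hx
    have : f x = 0 := hK hx
    simp [this]

/-- A projection to the plane which is injective on a given set of `p` points and does not change
two given independent vectors. -/
theorem exists_projection {V : Type*} [AddCommGroup V] [Module (ZMod p) V] [Finite V]
    (U : Finset V) (hU : U.card = p) (w1 w2 : V) (h1 : w1 ≠ 0)
    (h12 : w2 ∉ Submodule.span (ZMod p) {w1}) :
    ∃ φ : V →ₗ[ZMod p] ZMod p × ZMod p, φ w1 = (1, 0) ∧ φ w2 = (0, 1) ∧ Set.InjOn φ U := by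
  classical
  have h21 : w1 ∉ Submodule.span (ZMod p) {w2} := by
    intro h
    rw [Submodule.mem_span_singleton] at h
    obtain ⟨a, ha⟩ := h
    have ha0 : a ≠ 0 := by
      rintro rfl
      rw [zero_smul] at ha
      exact h1 ha.symm
    apply h12
    rw [Submodule.mem_span_singleton]
    exact ⟨a⁻¹, by rw [← ha, smul_smul, inv_mul_cancel₀ ha0, one_smul]⟩
  obtain ⟨f, hf1, hf0⟩ := exists_functional h21
  obtain ⟨g, hg1, hg0⟩ := exists_functional h12
  have hf2 : f w2 = 0 := hf0 _ (Submodule.mem_span_singleton_self w2)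
  have hg2 : g w1 = 0 := hg0 _ (Submodule.mem_span_singleton_self w1)
  let ψ : V →ₗ[ZMod p] ZMod p × ZMod p := f.prod g
  have hψ1 : ψ w1 = (1, 0) := by simp [ψ, hf1, hg2]
  have hψ2 : ψ w2 = (0, 1) := by simp [ψ, hf2, hg1]
  have : Finite (V →ₗ[ZMod p] ZMod p × ZMod p) := DFunLike.finite _
  have : Fintype (V →ₗ[ZMod p] ZMod p × ZMod p) := Fintype.ofFinite _
  let Θ : Finset (V →ₗ[ZMod p] ZMod p × ZMod p) :=
    Finset.univ.filter fun θ => θ w1 = 0 ∧ θ w2 = 0
  let B : V × V → Finset (V →ₗ[ZMod p] ZMod p × ZMod p) := fun q =>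
    Θ.filter fun θ => (ψ + θ) (q.1 - q.2) = 0
  have hΘ : ∀ θ, θ ∈ Θ ↔ θ w1 = 0 ∧ θ w2 = 0 := fun θ => by simp [Θ]
  have hB : ∀ q ∈ U.offDiag, p * p * (B q).card ≤ Θ.card := by
    rintro ⟨u, u'⟩ hq
    rw [Finset.mem_offDiag] at hq
    have hw0 : u - u' ≠ 0 := sub_ne_zero.2 hq.2.2
    by_cases hK : u - u' ∈ Submodule.span (ZMod p) {w1, w2}
    · have : B (u, u') = ∅ := by
        rw [Finset.eq_empty_iff_forall_notMem]
        intro θ hθ
        rw [Finset.mem_filter, hΘ] at hθ
        rw [Submodule.mem_span_pair] at hK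
        obtain ⟨a, b, hab⟩ := hK
        have h3 := hθ.2
        change (ψ + θ) (u - u') = 0 at h3
        rw [← hab, LinearMap.add_apply, map_add, map_add, map_smul, map_smul, map_smul, map_smul,
          hψ1, hψ2, hθ.1.1, hθ.1.2] at h3
        simp only [smul_zero, add_zero, Prod.smul_mk, Prod.mk_add_mk, smul_eq_mul, mul_one,
          mul_zero, zero_add] at h3
        rw [Prod.mk_eq_zero] at h3
        apply hw0
        rw [← hab, h3.1, h3.2, zero_smul, zero_smul, add_zero]
      rw [this]
      simp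
    · obtain ⟨l, hl1, hl0⟩ := exists_functional hK
      have hlw1 : l w1 = 0 := hl0 _ (Submodule.subset_span (by simp))
      have hlw2 : l w2 = 0 := hl0 _ (Submodule.subset_span (by simp))
      have h4 : ((Finset.univ : Finset (ZMod p × ZMod p)) ×ˢ B (u, u')).card ≤ Θ.card := by
        apply Finset.card_le_card_of_injOn
          (fun x : (ZMod p × ZMod p) × (V →ₗ[ZMod p] ZMod p × ZMod p) =>
            x.2 + l.smulRight x.1)
        · rintro ⟨ab, θ⟩ hx
          rw [Finset.mem_coe, Finset.mem_product, Finset.mem_filter, hΘ] at hx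
          rw [Finset.mem_coe, hΘ]
          have hx1 := hx.2.1.1
          have hx2 := hx.2.1.2
          change θ w1 = 0 at hx1
          change θ w2 = 0 at hx2
          constructor
          · simp [hx1, hlw1]
          · simp [hx2, hlw2]
        · rintro ⟨ab, θ⟩ hx ⟨ab', θ'⟩ hx' h
          rw [Finset.mem_coe, Finset.mem_product, Finset.mem_filter, hΘ] at hx hx'
          have hx3 := hx.2.2
          have hx3' := hx'.2.2
          change (ψ + θ) (u - u') = 0 at hx3
          change (ψ + θ') (u - u') = 0 at hx3'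
          rw [LinearMap.add_apply] at hx3 hx3'
          have h5 := congrArg (fun F : V →ₗ[ZMod p] ZMod p × ZMod p => F (u - u')) h
          simp only [LinearMap.add_apply, LinearMap.smulRight_apply, hl1, one_smul] at h5
          have h6 : θ (u - u') = θ' (u - u') := by
            have : ψ (u - u') + θ (u - u') = ψ (u - u') + θ' (u - u') := by rw [hx3, hx3']
            exact add_left_cancel this
          rw [h6] at h5
          have h7 : ab = ab' := add_left_cancel h5
          subst h7
          have h8 : θ = θ' := add_right_cancel h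
          rw [h8]
      rw [Finset.card_product, Finset.card_univ, Fintype.card_prod, ZMod.card] at h4
      exact h4
  have hp : 0 < p := (Fact.out : p.Prime).pos
  have hex : ∃ θ ∈ Θ, ∀ q ∈ U.offDiag, θ ∉ B q := by
    by_contra hcon
    push Not at hcon
    have hsub : Θ ⊆ U.offDiag.biUnion B := by
      intro θ hθ
      obtain ⟨q, hq, hq2⟩ := hcon θ hθ
      exact Finset.mem_biUnion.2 ⟨q, hq, hq2⟩
    have h5 := (Finset.card_le_card hsub).trans Finset.card_biUnion_le
    have h6 : p * p * Θ.card ≤ (p * (p - 1)) * Θ.card := by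
      calc p * p * Θ.card ≤ p * p * ∑ q ∈ U.offDiag, (B q).card := Nat.mul_le_mul_left _ h5
        _ = ∑ q ∈ U.offDiag, p * p * (B q).card := Finset.mul_sum _ _ _
        _ ≤ ∑ q ∈ U.offDiag, Θ.card := Finset.sum_le_sum hB
        _ = (p * (p - 1)) * Θ.card := by
          rw [Finset.sum_const, smul_eq_mul, Finset.offDiag_card, hU]
          congr 1
          rw [Nat.mul_sub, mul_one]
    have h7 : 0 < Θ.card := Finset.card_pos.2 ⟨0, by rw [hΘ]; simp⟩
    have h8 := Nat.le_of_mul_le_mul_right h6 h7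
    have h9 := Nat.le_of_mul_le_mul_left h8 hp
    omega
  obtain ⟨θ, hθ, hθB⟩ := hex
  have hθ' := (hΘ θ).1 hθ
  refine ⟨ψ + θ, ?_, ?_, ?_⟩
  · rw [LinearMap.add_apply, hψ1, hθ'.1, add_zero]
  · rw [LinearMap.add_apply, hψ2, hθ'.2, add_zero]
  · intro u hu u' hu' huu
    by_contra hne
    apply hθB (u, u') (Finset.mem_offDiag.2 ⟨hu, hu', hne⟩)
    rw [Finset.mem_filter]
    refine ⟨hθ, ?_⟩
    change (ψ + θ) (u - u') = 0
    rw [map_sub, huu, sub_self]

/-- **Sets of `p` points with intersections `0` or `1 mod s` with all affine subspaces.** -/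
theorem collinear {V : Type*} [AddCommGroup V] [Module (ZMod p) V] [Finite V]
    (s : ℕ) (hs : 8 ≤ s) (hps : p ≡ 1 [MOD s]) (U : Finset V) (hU : U.card = p)
    (h : ∀ (v : V) (W : Submodule (ZMod p) V),
      ((U : Set V) ∩ {x | x - v ∈ W}).ncard = 0 ∨ ((U : Set V) ∩ {x | x - v ∈ W}).ncard ≡ 1 [MOD s])
    (u0 u1 u2 : V) (hu0 : u0 ∈ U) (hu1 : u1 ∈ U) (hu2 : u2 ∈ U) (h01 : u1 ≠ u0) :
    u2 - u0 ∈ Submodule.span (ZMod p) {u1 - u0} := by
  classical
  by_contra hcon
  obtain ⟨φ, hφ1, hφ2, hinj⟩ := exists_projection U hU (u1 - u0) (u2 - u0) (sub_ne_zero.2 h01) hcon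
  have hcard : (U.image φ).card = p := by
    rw [Finset.card_image_of_injOn hinj, hU]
  obtain ⟨c, c1, c2, hc, hl⟩ := plane s hs hps (U.image φ) hcard (by
    intro c c1 c2 _
    have h1 : ((U.image φ).filter fun Q => c2 = c1 * Q.1 + c * Q.2) =
        (U.filter fun x => c2 = c1 * (φ x).1 + c * (φ x).2).image φ := by
      rw [Finset.filter_image]
    rw [h1, Finset.card_image_of_injOn (hinj.mono (Finset.coe_subset.2 (Finset.filter_subset _ _)))]
    by_cases hne : (U.filter fun x => c2 = c1 * (φ x).1 + c * (φ x).2).Nonempty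
    · obtain ⟨v, hv⟩ := hne
      rw [Finset.mem_filter] at hv
      let L : V →ₗ[ZMod p] ZMod p :=
        c1 • (LinearMap.fst (ZMod p) (ZMod p) (ZMod p)).comp φ +
          c • (LinearMap.snd (ZMod p) (ZMod p) (ZMod p)).comp φ
      have hL : ∀ x, L x = c1 * (φ x).1 + c * (φ x).2 := fun x => by simp [L]
      have h2 := h v (LinearMap.ker L)
      have h3 : (U : Set V) ∩ {x | x - v ∈ LinearMap.ker L} =
          ((U.filter fun x => c2 = c1 * (φ x).1 + c * (φ x).2 : Finset V) : Set V) := by
        ext x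
        simp only [Set.mem_inter_iff, Finset.mem_coe, Set.mem_ofPred_eq, LinearMap.mem_ker,
          map_sub, hL, Finset.mem_filter, Prod.fst_sub, Prod.snd_sub]
        refine and_congr_right fun _ => ⟨fun h3 => ?_, fun h3 => ?_⟩
        · linear_combination hv.2 - h3
        · linear_combination hv.2 - h3
      rw [h3, Set.ncard_coe_finset] at h2
      exact h2
    · left
      rw [Finset.card_eq_zero]
      exact Finset.not_nonempty_iff_eq_empty.1 hne)
  have e0 := hl _ (Finset.mem_image_of_mem φ hu0)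
  have e1 := hl _ (Finset.mem_image_of_mem φ hu1)
  have e2 := hl _ (Finset.mem_image_of_mem φ hu2)
  rw [map_sub] at hφ1 hφ2
  have a1 := congrArg Prod.fst hφ1
  have a2 := congrArg Prod.snd hφ1
  have b1 := congrArg Prod.fst hφ2
  have b2 := congrArg Prod.snd hφ2
  simp only [Prod.fst_sub, Prod.snd_sub] at a1 a2 b1 b2
  have hc1 : c1 = 0 := by linear_combination e0 - e1 - c1 * a1 - c * a2
  have hc0 : c = 0 := by linear_combination e0 - e2 - c1 * b1 - c * b2
  rcases hc with hc | hc
  · exact hc hc0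
  · exact hc hc1

end Pool.Agent.KS6_55.Aff
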